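import Pool.Agent.helper56.NR.Spec

/-!
# Project nr:, module MAX: the first obstacle on the maximal disc
-/

set_option autoImplicit false

open Complex Metric Set Filter Topology MeasureTheory Pool.Agent.helper98.ILF

open EX (ff)

noncomputable section

namespace NR

theorem MAX (hLFD : LFD_stmt) (hBRU : BRU_stmt) : MAX_stmt := by
  classical
  intro n c m hn hm hv
  -- the obstacles
  let P : ℕ → Prop := fun j => ∃ r : ℝ, ‖vv n c j - vv n c m‖ < r ∧ ∃ g : ℂ → ℂ,
    Brc n c j (vv n c m) r g ∧ g (vv n c m) = vv n c (m - j) ∧ g (vv n c j) = c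
  let F : Finset ℕ := (Finset.range m).filter P
  have hF : ∀ j, j ∈ F ↔ j < m ∧ P j := by
    intro j
    simp only [F, Finset.mem_filter, Finset.mem_range]
  have h0 : 0 ∈ F := by
    rw [hF]
    refine ⟨by omega, ‖vv n c 0 - vv n c m‖ + 1, by linarith, fun w => w, ⟨?_, ?_⟩, ?_, ?_⟩
    · exact differentiableOn_id
    · intro w _
      rfl
    · rfl
    · rfl
  have hne : ∀ j ∈ F, vv n c j ≠ vv n c m := by
    intro j hj h
    obtain ⟨hj1, r, hr, g, hg, hg1, hg2⟩ := (hF j).1 hj
    rw [h, hg1] at hg2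
    exact hv (m - j) (by omega) hg2
  obtain ⟨m', hm', hmin⟩ := Finset.exists_min_image F (fun j => ‖vv n c j - vv n c m‖) ⟨0, h0⟩
  obtain ⟨hlt, r', hr', g, hg, hg1, hg2⟩ := (hF m').1 hm'
  have hpos : 0 < ‖vv n c m' - vv n c m‖ := by
    rw [norm_pos_iff, sub_ne_zero]
    exact hne m' hm'
  rcases hLFD n c c m ‖vv n c m' - vv n c m‖ (by omega) hpos with ⟨G, hG, hG1⟩ |
      ⟨m₀, hm₀, h, hh, hh1, hh2, hh3⟩
  · change Brc n c m (vv n c m) _ G at hG
    change G (vv n c m) = c at hG1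
    refine ⟨m', ‖vv n c m' - vv n c m‖, r', G, g, hlt, hpos, hr', rfl, hG, hG1, hg, hg2, ?_⟩
    have hcomp := hG.comp hlt.le
    have hb := hBRU n c m' (vv n c m) (vv n c m) (vv n c m) _ r' _ g hcomp hg
      (mem_ball_self hpos) (mem_ball_self (hpos.trans hr'))
      (by
        change (ff n c)^[m - m'] (G (vv n c m)) = g (vv n c m)
        rw [hG1, hg1]
        rfl)
    intro w hw
    exact hb ⟨hw, ball_subset_ball hr'.le hw⟩
  · exfalso
    change Brc n c m₀ (vv n c m) _ h at hh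
    change h (vv n c m) = vv n c (m - m₀) at hh1
    change vv n c m₀ ∈ ball (vv n c m) _ at hh2
    rw [mem_ball, dist_eq_norm] at hh2
    have hmem : m₀ ∈ F := by
      rw [hF]
      exact ⟨hm₀, _, hh2, h, hh, hh1, hh3⟩
    have := hmin m₀ hmem
    linarith

end NR
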