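import Pool.Agent.helper84.NR.Spec

/-!
# Project NR (helper84), row WW0
-/

set_option autoImplicit false

namespace Pool.Agent.helper84.NR

open scoped Classical
open Finset

theorem WW0 : WW0_stmt := by
  intro V F M y f hf
  have h0 : M.bd f (st M y f) = y := by
    unfold st
    rw [dif_pos hf]
    exact hf.choose_spec
  refine ⟨?_, ?_⟩
  · unfold ww
    rw [Nat.add_zero]
    exact h0
  · unfold ww
    rw [M.per]
    exact h0

end Pool.Agent.helper84.NR
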