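import Pool.Agent.helper24.NR.Spec

/-!
# Project NR, row DEG
-/

set_option autoImplicit false

namespace Pool.Agent.NR

open Finset

theorem DEG : DEG_stmt := by
  classical
  intro V F _ _ vs es x hC
  have h := card_mul_eq_card_mul (s := NX es x) (t := FX vs x)
    (fun (v : V) (f : F) => s(x, v) ∈ es f) (m := 2) (n := 2) ?_ ?_
  · omega
  · intro v hv
    have hv' : ∃ f, s(x, v) ∈ es f := by
      unfold NX at hv
      exact (@mem_filter _ _ (_) _ _).mp hv |>.2
    obtain ⟨f, g, hfg, hk⟩ := hC.two s(x, v) hv'
    have he : (FX vs x).bipartiteAbove (fun (v : V) (f : F) => s(x, v) ∈ es f) v = {f, g} := by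
      ext k
      rw [mem_bipartiteAbove, hk k, mem_insert, mem_singleton]
      constructor
      · exact fun h => h.2
      · intro h
        refine ⟨?_, h⟩
        have h1 := (hC.ends k x v ((hk k).mpr h)).1
        unfold FX
        exact (@mem_filter _ _ (_) _ _).mpr ⟨mem_univ _, h1⟩
    rw [he, card_pair hfg]
  · intro f hf
    have hf' : x ∈ vs f := by
      unfold FX at hf
      exact (@mem_filter _ _ (_) _ _).mp hf |>.2
    obtain ⟨a, b, hab, hw⟩ := hC.deg2 f x hf'
    have he : (NX es x).bipartiteBelow (fun (v : V) (f : F) => s(x, v) ∈ es f) f = {a, b} := by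
      ext w
      rw [mem_bipartiteBelow, hw w, mem_insert, mem_singleton]
      constructor
      · exact fun h => h.2
      · intro h
        refine ⟨?_, h⟩
        unfold NX
        exact (@mem_filter _ _ (_) _ _).mpr ⟨mem_univ _, f, (hw w).mpr h⟩
    rw [he, card_pair hab]

end Pool.Agent.NR
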